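import Pool.Agent.W97.MT.Defs
import Pool.Agent.TH940.Per
import Pool.Agent.H300R2.HWPoints
import Pool.Agent.H82R3.EK.FF

/-!
# The 2-part of the Birch and Swinnerton-Dyer conjecture for `X_0(11)` over abelian 2-extensions:
statements of the independent parts.
-/

set_option autoImplicit false

open UpperHalfPlane MatrixGroups CongruenceSubgroup Filter Topology NumberField IsDedekindDomain

namespace Pool.Agent.Y702

open Pool.Agent.W97.MT (affCount ap)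

/-- The curve `y² + y = x³ - x² - 10 x - 20` (the modular curve `X_0(11)`). -/
def E11 : WeierstrassCurve ℤ := ⟨0, -1, 1, -10, -20⟩

/-! ### Jobs on the modular side -/

/-- HASSE: the coefficient of `q^(p-1)` modulo `p` (the two library files `W351/MT/HASSE.lean`,
`W237/V20/HASSE.lean` do it for two other curves). -/
def S_HASSE11 : Prop := ∀ (p : ℕ) [Fact p.Prime], p ≠ 2 → ∀ φ ξ σ : PowerSeries (ZMod p),
  PowerSeries.constantCoeff ξ = 1 → PowerSeries.constantCoeff σ = -2 →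
  PowerSeries.X * PowerSeries.derivative (ZMod p) ξ - 2 * ξ = φ * σ →
  σ ^ 2 = 4 * ξ ^ 3 - 4 * PowerSeries.X ^ 2 * ξ ^ 2 - 40 * PowerSeries.X ^ 4 * ξ
    - 79 * PowerSeries.X ^ 6 →
  PowerSeries.coeff (p - 1) φ = (ap E11 p : ZMod p)

/-- FIVE: the rational points of order five (library: `W349/MT/SIX.lean`). -/
def S_FIVE11 : Prop := ∀ (p : ℕ), p.Prime → p ≠ 5 → p ≠ 11 → 5 ∣ affCount E11 p + 1

/-- MIN (library: `W349/MT/MIN.lean`). -/
def S_MIN11 : Prop := E11.c₄ = 496 ∧ E11.c₆ = 20008 ∧ E11.Δ = -161051 ∧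
  affCount E11 2 = 4 ∧ affCount E11 3 = 4 ∧ affCount E11 5 = 4 ∧ affCount E11 11 = 10 ∧
  ∀ p : ℕ, p.Prime → affCount E11 p ≤ 2 * p

/-- LAT (library: `W646/MT/LAT.lean`). -/
def S_LAT11 : Prop := ∃ (L : PeriodPair) (Op Om : ℝ), 0 < Op ∧ 0 < Om ∧
  L.g₂ = 124 / 3 ∧ L.g₃ = 2501 / 27 ∧
  ∀ w : ℂ, w ∈ L.lattice ↔ ∃ a b : ℤ, 2 ∣ a - b ∧ w = a * Op + b * Om * Complex.I

/-- TORS: the point of order five `(16, -61)` and its double (library: `W349/MT/TORS.lean`). -/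
def S_TORS11 : Prop := ∀ L : PeriodPair, L.g₂ = 124 / 3 → L.g₃ = 2501 / 27 →
  ∀ u : ℂ, u ∉ L.lattice → L.weierstrassP u = 47 / 3 →
    2 * u ∉ L.lattice ∧ L.weierstrassP (2 * u) = 14 / 3 ∧ 5 * u ∈ L.lattice

/-- REALFIVE: a real number `t` between `0` and the real period `2 Op` with `℘(t) = 47 / 3`
and `℘'(t) < 0` is one fifth of the real period. -/
def S_REAL11 : Prop := ∀ (L : PeriodPair) (Op Om : ℝ), 0 < Op → 0 < Om →
  L.g₂ = 124 / 3 → L.g₃ = 2501 / 27 →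
  (∀ w : ℂ, w ∈ L.lattice ↔ ∃ a b : ℤ, 2 ∣ a - b ∧ w = a * Op + b * Om * Complex.I) →
  ∀ t : ℝ, 0 < t → t < 2 * Op → L.weierstrassP (t : ℂ) = 47 / 3 →
    (∃ d : ℝ, d < 0 ∧ L.derivWeierstrassP (t : ℂ) = d) → 5 * t = 2 * Op

/-- CP11: the constant principle on `X_0(11)` (library: `W237/V20/CP5.lean`). -/
def S_CP11 : Prop := ∀ g : ℂ → ℂ, DifferentiableOn ℂ g {z : ℂ | 0 < z.im} →
  (∀ a b c d : ℤ, a * d - b * (11 * c) = 1 → ∀ z : ℂ, 0 < z.im →
    g ((a * z + b) / (11 * c * z + d)) = g z) →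
  (∃ B T : ℝ, ∀ z : ℂ, T < z.im → ‖g z‖ ≤ B) →
  (∃ B T : ℝ, 0 ≤ T ∧ ∀ z : ℂ, T < z.im → ‖g (-1 / (11 * z))‖ ≤ B) →
  ∃ c : ℂ, ∀ z : ℂ, 0 < z.im → g z = c

/-! ### Jobs on point counts -/

/-- CUBEXT: the number of points of `y² = x³ + a x² + b x + c` over the extensions of `ZMod p`, `p`
odd (library: `W165/CE/FF.lean`, `points_ext`, does `a = 0`). -/
def S_CUBEXT : Prop := ∀ (p : ℕ) [Fact p.Prime], p ≠ 2 → ∀ a b c : ℤ,
  ¬ (p : ℤ) ∣ a ^ 2 * b ^ 2 - 4 * b ^ 3 - 4 * a ^ 3 * c - 27 * c ^ 2 + 18 * a * b * c →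
  ∀ (k : Type) [Field k] [Fintype k] [Algebra (ZMod p) k],
    (Fintype.card k : ℤ) - Nat.card {x : k × k //
        x.2 ^ 2 = x.1 ^ 3 + (a : k) * x.1 ^ 2 + (b : k) * x.1 + (c : k)} =
      Pool.Agent.H82R3.EK.luc ((p : ℤ) - Nat.card {x : ZMod p × ZMod p //
        x.2 ^ 2 = x.1 ^ 3 + (a : ZMod p) * x.1 ^ 2 + (b : ZMod p) * x.1 + (c : ZMod p)}) p
        (Module.finrank (ZMod p) k)

/-- CHAR2: the number of points of `y² + y = x³ + x²` over the field with `2^f` elements, `f` a power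
of two. -/
def S_CHAR2 : Prop := ∀ (k : Type) [Field k] [Fintype k] (j : ℕ), Fintype.card k = 2 ^ (2 ^ j) →
  (Fintype.card k : ℤ) - Nat.card {x : k × k // x.2 ^ 2 + x.2 = x.1 ^ 3 + x.1 ^ 2} =
    Pool.Agent.H82R3.EK.luc (-2) 2 (2 ^ j)

/-- NODE: the reduction at `11`. -/
def S_NODE11 : Prop := ∀ (k : Type) [Field k] [Fintype k] [CharP k 11],
  (Fintype.card k : ℤ) - Nat.card {x : k × k //
    x.2 ^ 2 + x.2 = x.1 ^ 3 - x.1 ^ 2 - 10 * x.1 - 20} = 1

/-! ### Jobs on subfields of cyclotomic fields -/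

/-- POINTS: the ring homomorphisms from the ring of integers of a subfield `F` of the `n`-th
cyclotomic field to a finite field `k` of any characteristic `p` (also `p ∣ n`): their number is the
sum of the values at `#k` of the primitive characters attached to the characters of `F`
(library: `H300R2/HWPoints.lean`, `points_eq_sum`, does `p ∤ n`). -/
def S_POINTS : Prop := ∀ (n : ℕ) [NeZero n] (L : Type) [Field L] [NumberField L]
  [IsCyclotomicExtension {n} ℚ L] (F : IntermediateField ℚ L) (k : Type) [Field k] [Finite k],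
  Finite (𝓞 F →+* k) ∧ (Nat.card (𝓞 F →+* k) : ℂ) =
    ∑ᶠ χ : H300.HW.YY n L F, (χ : DirichletCharacter ℂ n).primitiveCharacter (Nat.card k : ZMod _)

/-- DISCR: the conductor-discriminant formula for a subfield of the `n`-th cyclotomic field, `n`
squarefree. -/
def S_DISCR : Prop := ∀ (n : ℕ) [NeZero n] (L : Type) [Field L] [NumberField L]
  [IsCyclotomicExtension {n} ℚ L] (F : IntermediateField ℚ L), Squarefree n →
  (discr F).natAbs = ∏ᶠ χ : H300.HW.YY n L F, (χ : DirichletCharacter ℂ n).conductor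

/-! ### Jobs on twisted L-values -/

/-- UNIT: a product of Galois-conjugate sums. `Y` is a group of characters modulo `m` of order a
power of two, `c χ` is an integral weight which only depends on the group generated by `χ`, with odd
total: then the product of the sums is an odd integer. -/
def S_UNIT : Prop := ∀ (m : ℕ) [NeZero m] (Y : Subgroup (DirichletCharacter ℂ m)) (n : ℕ),
  Nat.card Y = 2 ^ n → ∀ c : DirichletCharacter ℂ m → (ZMod m)ˣ → ℤ,
  (∀ χ ∈ Y, ∀ a : ℕ, Odd a → ∀ u, c (χ ^ a) u = c χ u) →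
  (∀ χ ∈ Y, Odd (∑ u, c χ u)) →
  ∃ N : ℤ, Odd N ∧ ∏ᶠ χ : Y, ∑ u : (ZMod m)ˣ,
    (χ : DirichletCharacter ℂ m) (u : ZMod m) * (c χ u : ℂ) = N


/-- TWIST: the twisted L-functions of a newform of weight two and their central values in terms of
modular symbols `w u` (all inside the proofs of `TH940.pack` and `TH940.center`; here also `q = 1`,
in the arithmetic normalisation). -/
def S_TWIST : Prop := ∀ (N : ℕ) [NeZero N]
  (f : CuspForm (Gamma0 N : Subgroup (GL (Fin 2) ℝ)) 2) (ε : ℝ), W388.IsNewf N 2 f ε →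
  ∀ (Λ : Submodule ℤ ℂ), TH940.Pers f (Λ : Set ℂ) → ∀ c0 : ℂ,
  (∀ z : ℂ, 0 < z.im → TH940.prim f (-1 / (N * z)) = c0 - ε * TH940.prim f z) →
  ∀ (q : ℕ) [NeZero q], Nat.Coprime q N →
  ∃ w : (ZMod q)ˣ → ℂ, (∀ u, w u - c0 ∈ Λ) ∧ (∀ u, w (-u) = (starRingEnd ℂ) (w u)) ∧
    (∀ u : (ZMod q)ˣ, Tendsto (fun y : ℝ => TH940.prim f (((u : ZMod q).val : ℂ) / q +
      (y : ℂ) * Complex.I)) (𝓝[>] 0) (𝓝 (w u))) ∧
    ∀ χ : DirichletCharacter ℂ q, χ.IsPrimitive → ∃ F : ℂ → ℂ, Differentiable ℂ F ∧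
      (∀ s : ℂ, 3 / 2 < s.re → HasProd (fun p : Nat.Primes =>
        (1 - χ ((p : ℕ) : ZMod q) * (UpperHalfPlane.qExpansion 1 f).coeff p * ((p : ℕ) : ℂ) ^ (-s) +
          (if (p : ℕ) ∣ N then 0 else
            χ ((p : ℕ) : ZMod q) ^ 2 * ((p : ℕ) : ℂ) ^ (1 - 2 * s)))⁻¹) (F s)) ∧
      gaussSum χ⁻¹ (ZMod.stdAddChar (N := q)) * F 1 = ∑ u : (ZMod q)ˣ, χ⁻¹ (u : ZMod q) * w u

end Pool.Agent.Y702
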